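import Mathlib
import Pool.Agent.V1136.SchreierChain
import Pool.Agent.H149R3.FreeOne

/-!
# MP_16b0c2: if `R` is normal in a noncyclic free group and `[R, R] ≤ [S, S]` then `R ≤ S`
-/

set_option autoImplicit false

namespace Pool.Agent.Results.MP_16b0c2_al.NormalCommutatorContainment

open Pool.Agent.V1136.SchreierChain

universe u

open scoped commutatorElement

/-- The case of a free group on a set with two elements which is generated by `R` and `S`. -/
theorem eq_top {X : Type u} {x y : X} (hxy : x ≠ y) (R S : Subgroup (FreeGroup X))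
    (hRn : R.Normal) (hRS : R ⊔ S = ⊤) (h : ⁅R, R⁆ ≤ ⁅S, S⁆) (hne : ⁅R, R⁆ ≠ ⊥) : S = ⊤ := by
  have hSS : ⁅S, S⁆ ≤ S := Subgroup.commutator_le.2 fun a ha b hb => by
    rw [commutatorElement_def]
    exact mul_mem (mul_mem (mul_mem ha hb) (inv_mem ha)) (inv_mem hb)
  have hconj : ∀ κ ∈ ⁅R, R⁆, ∀ f : FreeGroup X, f⁻¹ * κ * f ∈ ⁅S, S⁆ := by
    intro κ hκ f
    apply h
    have : (⁅R, R⁆).Normal := Subgroup.commutator_normal R R
    simpa using this.conj_mem κ hκ f⁻¹
  have hfix : ∀ κ ∈ ⁅R, R⁆, ∀ v : FreeGroup X ⧸ S, κ • v = v := by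
    intro κ hκ v
    obtain ⟨f, rfl⟩ := QuotientGroup.mk_surjective v
    change ((κ * f : FreeGroup X) : FreeGroup X ⧸ S) = f
    rw [eq_comm, QuotientGroup.eq, ← mul_assoc]
    exact hSS (hconj κ hκ f)
  have hstab : ∀ s ∈ S, s • ((1 : FreeGroup X) : FreeGroup X ⧸ S) = (1 : FreeGroup X) := by
    intro s hs
    change ((s * 1 : FreeGroup X) : FreeGroup X ⧸ S) = (1 : FreeGroup X)
    rw [mul_one, eq_comm, QuotientGroup.eq]
    simpa using hs
  have hzero1 : ∀ κ ∈ ⁅S, S⁆, chain ((1 : FreeGroup X) : FreeGroup X ⧸ S) κ = 0 := by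
    intro κ hκ
    let φ : S →* Multiplicative ((FreeGroup X ⧸ S) × X →₀ ℤ) :=
      { toFun := fun s => Multiplicative.ofAdd (chain ((1 : FreeGroup X) : FreeGroup X ⧸ S) s)
        map_one' := by
          change Multiplicative.ofAdd (chain _ (1 : FreeGroup X)) = 1
          rw [chain_one]
          rfl
        map_mul' := fun s t => by
          change Multiplicative.ofAdd (chain _ ((s : FreeGroup X) * (t : FreeGroup X))) = _
          rw [chain_mul, hstab t t.2, add_comm, ofAdd_add] }
    have h1 : ⁅S, S⁆ = (commutator S).map S.subtype := by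
      rw [commutator_def, Subgroup.map_commutator, ← MonoidHom.range_eq_map, Subgroup.range_subtype]
    rw [h1] at hκ
    obtain ⟨s, hs, rfl⟩ := hκ
    have h2 : s ∈ φ.ker := Abelianization.commutator_subset_ker φ hs
    exact congrArg Multiplicative.toAdd h2
  have hgood : Good (FreeGroup X ⧸ S) R := by
    refine ⟨hRn, ?_, hfix, ?_⟩
    · have key : ∀ v : FreeGroup X ⧸ S, ∃ r ∈ R, r • ((1 : FreeGroup X) : FreeGroup X ⧸ S) = v := by
        intro v
        obtain ⟨f, rfl⟩ := QuotientGroup.mk_surjective v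
        have hf : f ∈ R ⊔ S := by rw [hRS]; exact Subgroup.mem_top f
        obtain ⟨r, hr, s, hs, rfl⟩ := Subgroup.mem_sup_of_normal_left.1 hf
        refine ⟨r, hr, ?_⟩
        change ((r * 1 : FreeGroup X) : FreeGroup X ⧸ S) = _
        rw [mul_one, QuotientGroup.eq]
        simpa using hs
      intro v w
      obtain ⟨r, hr, rfl⟩ := key v
      obtain ⟨r', hr', rfl⟩ := key w
      refine ⟨r' * r⁻¹, mul_mem hr' (inv_mem hr), ?_⟩
      rw [mul_smul, inv_smul_smul]
    · intro κ hκ v
      obtain ⟨f, rfl⟩ := QuotientGroup.mk_surjective v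
      have h1 := hzero1 _ (hconj κ hκ f)
      have h2 : f • ((1 : FreeGroup X) : FreeGroup X ⧸ S) = (f : FreeGroup X ⧸ S) := by
        change ((f * 1 : FreeGroup X) : FreeGroup X ⧸ S) = f
        rw [mul_one]
      rw [mul_assoc, chain_mul, chain_mul, h2, mul_smul, h2, hfix κ hκ, chain_inv,
        ← h2, inv_smul_smul] at h1
      rw [h2] at h1
      have h3 : chain (f : FreeGroup X ⧸ S) κ = 0 := by
        rw [← h1]; abel
      exact h3
  have hsub := hgood.subsingleton hne hxy
  rw [eq_top_iff]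
  intro f _
  have h1 : ((1 : FreeGroup X) : FreeGroup X ⧸ S) = f := Subsingleton.elim _ _
  rw [QuotientGroup.eq] at h1
  simpa using h1

theorem commutator_map_subtype {G : Type u} [Group G] (T K : Subgroup G) (hK : K ≤ T) :
    (⁅K.subgroupOf T, K.subgroupOf T⁆).map T.subtype = ⁅K, K⁆ := by
  rw [Subgroup.map_commutator, Subgroup.map_subgroupOf_eq_of_le hK]

theorem comm_of_subsingleton {ι : Type u} [Subsingleton ι] (a b : FreeGroup ι) : a * b = b * a := by
  have h : ∀ g : FreeGroup ι, ∀ i : ι, g * FreeGroup.of i = FreeGroup.of i * g := by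
    intro g i
    induction g using FreeGroup.induction_on with
    | C1 => simp
    | of j => rw [Subsingleton.elim i j]
    | inv_of j _ => rw [Subsingleton.elim i j]; simp
    | mul a b ha hb => rw [mul_assoc, hb, ← mul_assoc, ha, mul_assoc]
  induction b using FreeGroup.induction_on with
  | C1 => simp
  | of j => exact h a j
  | inv_of j hj => exact (Commute.inv_right (show Commute a (FreeGroup.of j) from hj)).eq
  | mul x y hx hy => rw [← mul_assoc, hx, mul_assoc, hy, mul_assoc]

/-- A nontrivial normal subgroup of a noncyclic free group is not abelian. -/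
theorem commutator_ne_bot {F : Type u} [Group F] [IsFreeGroup F] (hF : ¬ IsCyclic F)
    (R : Subgroup F) (hR : R.Normal) (hne : R ≠ ⊥) : ⁅R, R⁆ ≠ ⊥ := by
  classical
  let e : F ≃* FreeGroup (IsFreeGroup.Generators F) := IsFreeGroup.toFreeGroup F
  have hgen : ∃ i j : IsFreeGroup.Generators F, i ≠ j := by
    by_contra hcon
    push Not at hcon
    haveI : Subsingleton (IsFreeGroup.Generators F) := ⟨hcon⟩
    apply hF
    rcases isEmpty_or_nonempty (IsFreeGroup.Generators F) with hE | ⟨⟨i⟩⟩
    · refine ⟨1, fun g => ?_⟩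
      have : g = 1 := e.injective (Subsingleton.elim _ _)
      exact ⟨0, by simp [this]⟩
    · refine ⟨e.symm (FreeGroup.of i), fun g => ?_⟩
      have h1 : ∀ f : FreeGroup (IsFreeGroup.Generators F),
          f ∈ Subgroup.zpowers (FreeGroup.of i) := by
        intro f
        induction f using FreeGroup.induction_on with
        | C1 => exact one_mem _
        | of j => rw [Subsingleton.elim j i]; exact Subgroup.mem_zpowers _
        | inv_of j _ => rw [Subsingleton.elim j i]; exact inv_mem (Subgroup.mem_zpowers _)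
        | mul a b ha hb => exact mul_mem ha hb
      obtain ⟨n, hn⟩ := h1 (e g)
      refine ⟨n, ?_⟩
      apply e.injective
      change e (e.symm (FreeGroup.of i) ^ n) = e g
      rw [map_zpow, MulEquiv.apply_symm_apply]
      exact hn
  obtain ⟨r, hr, hr1⟩ := (Subgroup.bot_or_exists_ne_one R).resolve_left hne
  have her : e r ≠ 1 := fun h => hr1 (e.injective (h.trans (map_one e).symm))
  obtain ⟨c, d, hcd⟩ := Pool.Agent.H149R3.exists_not_commute hgen (e r) (e r) her her 1 one_pos
  set f := FreeGroup.mk [c] ^ 1 * FreeGroup.mk [d] ^ 1 with hf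
  intro hbot
  apply hcd
  have h1 : e.symm f * r * (e.symm f)⁻¹ ∈ R := hR.conj_mem r hr _
  have h2 : ⁅r, e.symm f * r * (e.symm f)⁻¹⁆ ∈ ⁅R, R⁆ := Subgroup.commutator_mem_commutator hr h1
  rw [hbot, Subgroup.mem_bot, commutatorElement_eq_one_iff_mul_comm] at h2
  have h3 := congrArg e h2
  simpa using h3

/-- Let `F` be a noncyclic free group, let `R` be a normal subgroup of `F` and let `S` be an
arbitrary subgroup of `F` with `[R, R] ≤ [S, S]`. Then `R ≤ S`. -/
theorem result {F : Type u} [Group F] [IsFreeGroup F] (hF : ¬ IsCyclic F)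
    (R S : Subgroup F) (hR : R.Normal) (h : ⁅R, R⁆ ≤ ⁅S, S⁆) : R ≤ S := by
  classical
  by_cases hbot : R = ⊥
  · rw [hbot]; exact bot_le
  have hne := commutator_ne_bot hF R hR hbot
  -- the subgroup generated by `R` and `S`
  set T : Subgroup F := R ⊔ S with hT
  have hRT : R ≤ T := le_sup_left
  have hST : S ≤ T := le_sup_right
  let e : T ≃* FreeGroup (IsFreeGroup.Generators T) := IsFreeGroup.toFreeGroup T
  let R₁ : Subgroup (FreeGroup (IsFreeGroup.Generators T)) := (R.subgroupOf T).map e.toMonoidHom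
  let S₁ : Subgroup (FreeGroup (IsFreeGroup.Generators T)) := (S.subgroupOf T).map e.toMonoidHom
  have hR₁ : R₁.Normal := (Subgroup.normal_subgroupOf).map e.toMonoidHom e.surjective
  have hRS : R₁ ⊔ S₁ = ⊤ := by
    rw [← Subgroup.map_sup, ← Subgroup.subgroupOf_sup hRT hST, ← hT, Subgroup.subgroupOf_self,
      ← MonoidHom.range_eq_map]
    exact MonoidHom.range_eq_top.2 e.surjective
  have h' : ⁅R.subgroupOf T, R.subgroupOf T⁆ ≤ ⁅S.subgroupOf T, S.subgroupOf T⁆ := by
    rw [← Subgroup.map_le_map_iff_of_injective T.subtype_injective,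
      commutator_map_subtype T R hRT, commutator_map_subtype T S hST]
    exact h
  have h1 : ⁅R₁, R₁⁆ ≤ ⁅S₁, S₁⁆ := by
    rw [← Subgroup.map_commutator, ← Subgroup.map_commutator]
    exact Subgroup.map_mono h'
  have hne' : ⁅R₁, R₁⁆ ≠ ⊥ := by
    rw [← Subgroup.map_commutator]
    intro h2
    apply hne
    rw [Subgroup.map_eq_bot_iff_of_injective _ e.injective] at h2
    rw [← commutator_map_subtype T R hRT, h2, Subgroup.map_bot]
  have hgen : ∃ x y : IsFreeGroup.Generators T, x ≠ y := by
    by_contra hcon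
    push Not at hcon
    haveI : Subsingleton (IsFreeGroup.Generators T) := ⟨hcon⟩
    apply hne'
    rw [Subgroup.commutator_eq_bot_iff_le_centralizer]
    intro a _
    rw [Subgroup.mem_centralizer_iff]
    intro b _
    exact comm_of_subsingleton b a
  obtain ⟨x, y, hxy⟩ := hgen
  have h2 := eq_top hxy R₁ S₁ hR₁ hRS h1 hne'
  intro r hr
  have h3 : e ⟨r, hRT hr⟩ ∈ S₁ := by rw [h2]; exact Subgroup.mem_top _
  obtain ⟨s, hs, h4⟩ := h3
  have h5 : s = ⟨r, hRT hr⟩ := e.injective h4
  rw [h5] at hs
  exact hs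

end Pool.Agent.Results.MP_16b0c2_al.NormalCommutatorContainment
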